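import Mathlib
import Pool.Agent.Q277.SchmidtPowMain

/-!
# Non-integrality of the Schmidt-type coefficients

For all integers `r > s > 1` the coefficients `c_n^{(r,s)}` defined by
`sum_k C(n,k)^r C(n+k,k)^r = sum_k C(n,k)^s C(n+k,k)^s c_k` are not all integers.
-/

open Finset

namespace Pool.Agent.Results.MP_90f83a_nt.NonIntegral

/-- `c` is the sequence of the coefficients `c_k^{(r,s)}`. -/
def IsCoeff (r s : ℕ) (c : ℕ → ℚ) : Prop :=
  ∀ n : ℕ, ∑ k ∈ range (n + 1), (n.choose k : ℚ) ^ r * ((n + k).choose k : ℚ) ^ r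
    = ∑ k ∈ range (n + 1), (n.choose k : ℚ) ^ s * ((n + k).choose k : ℚ) ^ s * c k

theorem isCoeff_iff (r s : ℕ) (c : ℕ → ℚ) : IsCoeff r s c ↔
    ∀ n : ℕ, ∑ k ∈ range (n + 1), (Q277.SchmidtPow.b n k : ℚ) ^ r
      = ∑ k ∈ range (n + 1), (Q277.SchmidtPow.b n k : ℚ) ^ s * c k := by
  unfold IsCoeff Q277.SchmidtPow.b
  simp only [Nat.cast_mul, mul_pow]

/-- The sequence `c^{(r,s)}` exists and is unique; for all `r > s > 1` some `c_n` with
`1 ≤ n ≤ 26` is not an integer (`n ≤ 17` for `s = 2`, and `n ≤ 8` for `s ≥ 4`). -/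
theorem result :
    (∀ r s : ℕ, ∃! c : ℕ → ℚ, IsCoeff r s c) ∧
    ∀ r s : ℕ, 1 < s → s < r → ∀ c : ℕ → ℚ, IsCoeff r s c →
      ∃ n : ℕ, 1 ≤ n ∧ n ≤ (if s = 2 then 17 else if s = 3 then 26 else 8) ∧
        ¬ ∃ z : ℤ, c n = z := by
  refine ⟨fun r s => ?_, fun r s hs hrs c hc => ?_⟩
  · simp only [isCoeff_iff]
    exact Q277.SchmidtPow.exists_unique r s
  · rw [isCoeff_iff] at hc
    obtain ⟨n, hn, h⟩ := Q277.SchmidtPow.main_rat (by omega) hrs c hc
    refine ⟨n, ?_, hn, fun ⟨z, hz⟩ => h z hz⟩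
    rcases Nat.eq_zero_or_pos n with rfl | h0
    · exfalso
      have h1 := hc 0
      norm_num [Q277.SchmidtPow.b] at h1
      exact h 1 (by push_cast; exact h1.symm)
    · exact h0

end Pool.Agent.Results.MP_90f83a_nt.NonIntegral
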